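import Pool.Agent.R798.DMPd

set_option autoImplicit false

namespace Pool.Agent.Results.MP_161132_co.LinearSaturation

open Classical in
/-- `p 0, …, p (m - 1)` is a degree monotone path of the graph `G`: the vertices are distinct,
consecutive ones are adjacent, and the degrees do not decrease or do not increase along it. -/
def IsDegMonoPath {V : Type} [Fintype V] (G : SimpleGraph V) {m : ℕ} (p : Fin m → V) : Prop :=
  Function.Injective p ∧
    (∀ i j : Fin m, i.val + 1 = j.val → G.Adj (p i) (p j)) ∧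
    ((∀ i j : Fin m, i.val + 1 = j.val → G.degree (p i) ≤ G.degree (p j)) ∨
      (∀ i j : Fin m, i.val + 1 = j.val → G.degree (p j) ≤ G.degree (p i)))

/-- The largest number of vertices of a degree monotone path of `G`. -/
noncomputable def mp {V : Type} [Fintype V] (G : SimpleGraph V) : ℕ :=
  sSup {m | ∃ p : Fin m → V, IsDegMonoPath G p}

/-- `G` is `k`-saturated: `mp G < k`, and adding any edge between two non-adjacent vertices
gives a graph with `mp ≥ k`. -/
def Saturated {V : Type} [Fintype V] (k : ℕ) (G : SimpleGraph V) : Prop :=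
  mp G < k ∧ ∀ x y : V, x ≠ y → ¬ G.Adj x y → k ≤ mp (G ⊔ SimpleGraph.edge x y)

open Classical in
/-- `h n k` is the least number of edges of a `k`-saturated graph with `n` vertices. -/
noncomputable def h (n k : ℕ) : ℕ :=
  sInf {e | ∃ G : SimpleGraph (Fin n), Saturated k G ∧ G.edgeFinset.card = e}

open Pool.Agent.R798.DMP Pool.Agent.R798.EGdeg

open Classical in
theorem degree_eq_dg {V : Type} [Fintype V] (G : SimpleGraph V) (v : V) :
    G.degree v = dg G v := by
  unfold dg
  rw [← SimpleGraph.card_neighborFinset_eq_degree]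
  congr 1
  ext u
  rw [mem_nbr, SimpleGraph.mem_neighborFinset]

theorem lt_of_mem {V : Type} [Fintype V] {G : SimpleGraph V} {k : ℕ} (hk : 1 ≤ k)
    (hU : ¬ Up G k) {m : ℕ} (hm : ∃ p : Fin m → V, IsDegMonoPath G p) : m < k := by
  by_contra hmk
  apply hU
  obtain ⟨p, h1, h2, h3⟩ := hm
  rcases h3 with h3 | h3
  · refine ⟨fun i => if hi : i < m then p ⟨i, hi⟩ else p ⟨0, by omega⟩, ?_, ?_⟩
    · intro i hi j hj hij
      rw [Set.mem_Iio] at hi hj
      simp only [dif_pos (show i < m by omega), dif_pos (show j < m by omega)] at hij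
      have := h1 hij
      rwa [Fin.mk.injEq] at this
    · intro i hi
      simp only [dif_pos (show i < m by omega), dif_pos (show i + 1 < m by omega)]
      refine ⟨h2 _ _ rfl, ?_⟩
      have := h3 ⟨i, by omega⟩ ⟨i + 1, by omega⟩ rfl
      rwa [degree_eq_dg, degree_eq_dg] at this
  · refine ⟨fun i => p ⟨m - 1 - i, by omega⟩, ?_, ?_⟩
    · intro i hi j hj hij
      rw [Set.mem_Iio] at hi hj
      have := h1 hij
      rw [Fin.mk.injEq] at this
      omega
    · intro i hi
      refine ⟨(h2 ⟨m - 1 - (i + 1), by omega⟩ ⟨m - 1 - i, by omega⟩ ?_).symm, ?_⟩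
      · simp only
        omega
      · have := h3 ⟨m - 1 - (i + 1), by omega⟩ ⟨m - 1 - i, by omega⟩ (by simp only; omega)
        rwa [degree_eq_dg, degree_eq_dg] at this

theorem mp_lt {V : Type} [Fintype V] {G : SimpleGraph V} {k : ℕ} (hk : 1 ≤ k)
    (hU : ¬ Up G k) : mp G < k := by
  have hlt : ∀ m ∈ {m | ∃ p : Fin m → V, IsDegMonoPath G p}, m < k :=
    fun m hm => lt_of_mem hk hU hm
  rcases Set.eq_empty_or_nonempty {m | ∃ p : Fin m → V, IsDegMonoPath G p} with h0 | h0
  · unfold mp
    rw [h0, csSup_empty]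
    exact hk
  · exact hlt _ (Nat.sSup_mem h0 ⟨k, fun m hm => (hlt m hm).le⟩)

theorem le_mp_of_path {V : Type} [Fintype V] {G : SimpleGraph V} {k : ℕ}
    (p : Fin k → V) (hp : IsDegMonoPath G p) : k ≤ mp G := by
  apply le_csSup _ (show k ∈ {m | ∃ p : Fin m → V, IsDegMonoPath G p} from ⟨p, hp⟩)
  refine ⟨Fintype.card V, ?_⟩
  rintro m ⟨q, hq, _⟩
  have := Fintype.card_le_of_injective q hq
  rwa [Fintype.card_fin] at this

theorem le_mp {V : Type} [Fintype V] {G : SimpleGraph V} {k : ℕ} (hU : Up G k) : k ≤ mp G := by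
  obtain ⟨p, h1, h2⟩ := hU
  refine le_mp_of_path (fun i : Fin k => p i.1) ⟨?_, ?_, Or.inl ?_⟩
  · intro i j hij
    exact Fin.ext (h1 (Set.mem_Iio.2 i.2) (Set.mem_Iio.2 j.2) hij)
  · intro i j hij
    simp only
    rw [← hij]
    exact (h2 i.1 (by omega)).1
  · intro i j hij
    rw [degree_eq_dg, degree_eq_dg]
    simp only
    rw [← hij]
    exact (h2 i.1 (by omega)).2

theorem sup_edge {V : Type} (G : SimpleGraph V) (x y : V) :
    G ⊔ SimpleGraph.edge x y = addE G x y := by
  ext u v
  rw [SimpleGraph.sup_adj, SimpleGraph.edge_adj, addE_adj]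
  tauto

open Classical in
theorem key (k : ℕ) (hk : 2 ≤ k) : ∃ n₀ : ℕ, ∀ n : ℕ, n₀ ≤ n → ∃ G : SimpleGraph (Fin n),
    Saturated k G ∧ G.edgeFinset.card ≤ 2 * n := by
    rcases Nat.lt_or_ge 2 k with hk2 | hk2
    · obtain ⟨K, rfl⟩ : ∃ K, k = K + 2 := ⟨k - 2, by omega⟩
      obtain ⟨n₀, hn₀⟩ := exists_graph K (by omega)
      refine ⟨n₀, ?_⟩
      intro n hn
      obtain ⟨G, h1, h2, h3⟩ := hn₀ n hn
      refine ⟨G, ⟨mp_lt (by omega) h1, ?_⟩, ?_⟩
      · intro x y hxy hadj
        rw [sup_edge]
        exact le_mp (h2 x y hxy hadj)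
      · have h4 := G.sum_degrees_eq_twice_card_edges
        have h5 : ∑ v, G.degree v = ∑ v, dg G v :=
          Finset.sum_congr rfl (fun v _ => degree_eq_dg G v)
        omega
    · have hk' : k = 2 := by omega
      subst hk'
      refine ⟨0, ?_⟩
      intro n _
      refine ⟨⊥, ⟨mp_lt (by omega) ?_, ?_⟩, ?_⟩
      · rintro ⟨p, _, h2⟩
        exact (h2 0 (by omega)).1.elim
      · intro x y hxy _
        have hadj : ((⊥ : SimpleGraph (Fin n)) ⊔ SimpleGraph.edge x y).Adj x y := by
          rw [SimpleGraph.sup_adj, SimpleGraph.edge_adj]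
          exact Or.inr ⟨Or.inl ⟨rfl, rfl⟩, hxy⟩
        refine le_mp_of_path ![x, y] ⟨?_, ?_, ?_⟩
        · intro i j hij
          fin_cases i <;> fin_cases j <;> simp_all
        · intro i j hij
          fin_cases i <;> fin_cases j <;> simp_all
        · have hij2 : ∀ i j : Fin 2, i.val + 1 = j.val → i = 0 ∧ j = 1 := by
            intro i j hij
            constructor
            · apply Fin.ext
              simp only [Fin.val_zero]
              omega
            · apply Fin.ext
              simp only [Fin.val_one]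
              omega
          rcases Nat.le_total (dg ((⊥ : SimpleGraph (Fin n)) ⊔ SimpleGraph.edge x y) x)
            (dg ((⊥ : SimpleGraph (Fin n)) ⊔ SimpleGraph.edge x y) y) with h | h
          · left
            intro i j hij
            obtain ⟨rfl, rfl⟩ := hij2 i j hij
            rw [degree_eq_dg, degree_eq_dg]
            exact h
          · right
            intro i j hij
            obtain ⟨rfl, rfl⟩ := hij2 i j hij
            rw [degree_eq_dg, degree_eq_dg]
            exact h
      · rw [Finset.card_eq_zero.2]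
        · exact Nat.zero_le _
        · ext e
          simp

/-- For every `k ≥ 2` and all sufficiently large `n` (depending on `k`) there is a `k`-saturated
graph with `n` vertices, and `h(n, k) ≤ 2n`. -/
theorem result : ∀ k : ℕ, 2 ≤ k → ∃ n₀ : ℕ, ∀ n : ℕ, n₀ ≤ n →
    (∃ G : SimpleGraph (Fin n), Saturated k G) ∧ h n k ≤ 2 * n := by
  intro k hk
  obtain ⟨n₀, hn₀⟩ := key k hk
  refine ⟨n₀, ?_⟩
  intro n hn
  obtain ⟨G, h1, h2⟩ := hn₀ n hn
  exact ⟨⟨G, h1⟩, le_trans (Nat.sInf_le ⟨G, h1, rfl⟩) h2⟩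

end Pool.Agent.Results.MP_161132_co.LinearSaturation
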